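import Pool.Agent.Q253.LK.K6
import Pool.Agent.Q253.LK.K7

set_option autoImplicit false

/-!
# The algebraic independence of the ordinates, as inequalities for primes

No hypothesis is assumed.  For `x = e^u` put `E(u) = ∑ Λ(n) n^(-1/2) min(n/x, x/n) - (8/3) √x`.  The algebraic independence of
the ordinates (the question), with the Riemann hypothesis and simplicity, is equivalent to the one-sided bounds `Bound` for the
exponential mean of `cos(θu) - E(u)`, for all `θ > 0` which are algebraic over the field generated by finitely many ordinates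
and no rational linear combination of them; the bounds with fewer than `n` ordinates give the algebraic independence of any
`n` of them.
-/

open Filter Topology Set Complex

namespace Pool.Agent.Results.MP_ec260d_nt.AlgebraicIndependence

/-- the Riemann hypothesis -/
def RH : Prop := ∀ s : ℂ, 1 / 2 < s.re → s.re < 1 → riemannZeta s ≠ 0

/-- the set `Γ` of the problem -/
def Gam : Set ℝ := {γ : ℝ | 0 < γ ∧ ∃ β : ℝ, riemannZeta ((β : ℂ) + (γ : ℂ) * I) = 0}

/-- the zeros with positive ordinate are simple -/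
def Simple : Prop := ∀ s : ℂ, 0 < s.im → riemannZeta s = 0 → deriv riemannZeta s ≠ 0

/-- `∑ Λ(n) n^(-1/2) min(n/x, x/n) - (8/3) √x` for `x = e^u` -/
noncomputable def E (u : ℝ) : ℝ :=
  (∑' n : ℕ, ArithmeticFunction.vonMangoldt n *
    (Real.exp (-(Real.log n / 2)) * Real.exp (-|u - Real.log n|))) - 8 / 3 * Real.exp (u / 2)

/-- `(1/U) ∫_0^U exp (λ (cos(θu) - E(u))) du` -/
noncomputable def M (lam θ U : ℝ) : ℝ :=
  (1 / U) * ∫ u in (0 : ℝ)..U, Real.exp (lam * (Real.cos (θ * u) - E u))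

/-- the Bessel function `I₀` -/
noncomputable def I0 (w : ℂ) : ℂ := ∑' k : ℕ, (w / 2) ^ (2 * k) / ((Nat.factorial k : ℂ) ^ 2)

/-- Riemann's function -/
noncomputable def xi (s : ℂ) : ℂ := (1 + s * (s - 1) * completedRiemannZeta₀ s) / 2

/-- `H(t) = (1-t)^(-1/2) ξ'/ξ (1/2 + (1-t)^(1/2))`; for `|t| = 1/2` the argument has real part greater than `1` -/
noncomputable def H (t : ℂ) : ℂ := (1 - t) ^ (-(1 / 2) : ℂ) * logDeriv xi (1 / 2 + (1 - t) ^ (1 / 2 : ℂ))

/-- `R(λ) = exp ((1/4πi) ∮_{|t| = 1/2} H(t) log I₀(4λ/t) dt)` -/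
noncomputable def R (lam : ℝ) : ℝ :=
  Real.exp (1 / (4 * Real.pi * I) * ∮ t in C(0, 1 / 2), H t * Complex.log (I0 (4 * lam / t))).re

/-- the one-sided bound `limsup M(λ, θ, U) ≤ I₀(λ) R(λ)` -/
def Bound (lam θ : ℝ) : Prop := ∀ ε : ℝ, 0 < ε → ∀ᶠ U : ℝ in atTop, M lam θ U ≤ (I0 lam).re * R lam + ε

/-- `θ > 0` is algebraic over `ℚ(S)` and is no rational linear combination of elements of `S` -/
def Test (S : Finset ℝ) (θ : ℝ) : Prop :=
  0 < θ ∧ IsAlgebraic (IntermediateField.adjoin ℚ (S : Set ℝ)) θ ∧ θ ∉ Submodule.span ℚ (S : Set ℝ)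

/-- every rational linear combination of elements of `Γ` which is algebraic over `ℚ(S)`, `S ⊆ Γ` with fewer than `n`
elements, is a rational linear combination of elements of `S` -/
def Level (n : ℕ) : Prop := ∀ S : Finset ℝ, (S : Set ℝ) ⊆ Gam → S.card < n →
  ∀ θ ∈ Submodule.span ℚ Gam, IsAlgebraic (IntermediateField.adjoin ℚ (S : Set ℝ)) θ → θ ∈ Submodule.span ℚ (S : Set ℝ)

lemma E_eq : E = Pool.Agent.Q253.LQ.EE 1 := by
  funext u
  unfold E Pool.Agent.Q253.LQ.EE
  rw [Nat.totient_one, Nat.cast_one, one_mul]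
  congr 1
  refine tsum_congr fun n => ?_
  rw [if_pos (by rw [Nat.mod_one, Nat.mod_one])]

lemma XL_eq (χ : DirichletCharacter ℂ 1) : Pool.Agent.Q253.LQ.XL χ = xi := by
  funext s
  unfold Pool.Agent.Q253.LQ.XL
  rw [if_pos (Subsingleton.elim χ 1)]
  rfl

lemma R_eq : R = Pool.Agent.Q253.LQ.Rq 1 := by
  funext lam
  unfold R Pool.Agent.Q253.LQ.Rq
  have e : ∀ t, Pool.Agent.Q253.LQ.Hq 1 t = H t := by
    intro t
    unfold Pool.Agent.Q253.LQ.Hq H
    congr 1
    simp_rw [XL_eq]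
    rw [Finset.sum_const]
    have : (Finset.univ : Finset (DirichletCharacter ℂ 1)).card = 1 := by
      rw [Finset.card_univ, Fintype.card_eq_one_iff]
      exact ⟨1, fun χ => Subsingleton.elim _ _⟩
    rw [this, one_smul]
  simp_rw [e]
  rfl

lemma RH_iff : Pool.Agent.Q253.LQ.GRHq 1 ↔ RH := Pool.Agent.Q253.LM.grh_one

lemma M_eq : M = Pool.Agent.Q253.LK.MT := by
  funext lam θ U
  unfold M Pool.Agent.Q253.LK.MT
  rw [E_eq]

lemma main (lam : ℝ) (h0 : 0 < lam) (h1 : lam ≤ 1 / 8) (θ : ℝ) (hθ : 0 < θ) :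
    (RH ∧ Simple) ∧ LinearIndependent ℚ (Pool.Agent.Q253.LK.fam Gam θ) ↔ Bound lam θ := by
  obtain ⟨a1, -, -⟩ := Pool.Agent.Q253.LK.critθ hθ h0 h1
  rw [RH_iff, ← R_eq, ← M_eq] at a1
  exact and_assoc.trans a1

/-- Let `0 < λ ≤ 1/8`.  (1) The Riemann hypothesis, simplicity and the algebraic independence of `Γ` (the question) are together
equivalent to the bounds for all finite `S ⊆ Γ` and all `θ > 0` which are algebraic over `ℚ(S)` and not in the `ℚ`-span of
`S`.  (2) For `n ≥ 1` the bounds for the `S` with fewer than `n` elements are equivalent to the Riemann hypothesis, simplicity,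
the linear independence of `Γ` and `Level n`.  (3) The last two imply that any at most `n` elements of `Γ` are algebraically
independent. -/
theorem result (lam : ℝ) (h0 : 0 < lam) (h1 : lam ≤ 1 / 8) :
    ((RH ∧ Simple ∧ AlgebraicIndependent ℚ (fun γ : Gam => (γ : ℝ))) ↔
      ∀ S : Finset ℝ, (S : Set ℝ) ⊆ Gam → ∀ θ : ℝ, Test S θ → Bound lam θ) ∧
    (∀ n : ℕ, 1 ≤ n → ((RH ∧ Simple ∧ LinearIndependent ℚ (fun γ : Gam => (γ : ℝ)) ∧ Level n) ↔
      ∀ S : Finset ℝ, (S : Set ℝ) ⊆ Gam → S.card < n → ∀ θ : ℝ, Test S θ → Bound lam θ)) ∧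
    (∀ n : ℕ, LinearIndependent ℚ (fun γ : Gam => (γ : ℝ)) → Level n → ∀ T : Finset ℝ, (T : Set ℝ) ⊆ Gam → T.card ≤ n →
      AlgebraicIndependent ℚ (fun γ : (T : Set ℝ) => (γ : ℝ))) := by
  have hP : ∀ θ : ℝ, 0 < θ → ((RH ∧ Simple) ∧ LinearIndependent ℚ (Pool.Agent.Q253.LK.fam Gam θ) ↔ Bound lam θ) :=
    main lam h0 h1
  have hG : ∀ γ ∈ Gam, 0 < γ := fun γ hγ => hγ.1
  refine ⟨?_, fun n hn => ?_, fun n hL hLev T hT hc => ?_⟩
  · rw [← and_assoc]
    exact Pool.Agent.Q253.LK.full_iff hG hP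
  · rw [← and_assoc]
    exact Pool.Agent.Q253.LK.level_iff hP hn
  · exact Pool.Agent.Q253.LK.level_AI hG hL hLev T hT hc

end Pool.Agent.Results.MP_ec260d_nt.AlgebraicIndependence
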