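import Pool.Agent.Q288.AP.Ord

/-!
# Algebraic independence of the ordinates of `ξ = a`

Let `ξ(s) = s (s - 1) π^(-s/2) Γ(s/2) ζ(s) / 2`, and for a complex number `a` let `Γ_a` be the set of the positive
imaginary parts of the solutions `s` of `ξ(s) = a`.  `Γ_0` is the set `Γ` of the ordinates of the zeros of `ζ`, which is
expected to be algebraically independent over `ℚ`.  We prove this for all real `a` outside a countable set: for every
countable field `K` of complex numbers there is a countable set `E` such that for every real `a ∉ E` the set `Γ_a` is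
infinite and algebraically independent over `K`.  For complex `a ∉ E` the solutions of `ξ(s) = a` themselves, one from
each pair `s, 1 - s`, are infinitely many and algebraically independent over `K`.

Proof.  Write `8 ξ(1/2 + z) = F(z²)`.  Over a half plane `Re ζ > X` the solutions of `F(w) = exp ζ` are
`w = G(ζ + 2 π i n)`, `n ∈ ℤ`, with one injective holomorphic function `G`, and `X` can be taken to be the logarithm of
the modulus of the largest critical value; this uses `Re (ξ'/ξ)(s) ≥ c > 0` for `Re s ≥ 3/2` and that `F` has no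
asymptotic value besides `0`.  Only finitely many of the translates `p - 2 π i k` of a singular point `p` of `G` on the
line `Re ζ = X` are singular for `G`.  Continuing a polynomial relation between the translates of `G` to the last one,
where two branches take the same value, gives a relation with fewer functions; so the functions `G(ζ + 2 π i n)` are
algebraically independent over `ℂ`.  If for uncountably many `a` the solutions of `F = a` are dependent over `K`, then
one polynomial vanishes at the solutions for a convergent sequence of noncritical values, hence identically along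
analytic branches, and by continuation on the translates of `G`.
-/

set_option autoImplicit false

namespace Pool.Agent.Results.MP_ec260d_nt.GenericValues

/-- Riemann's `ξ(s) = s (s - 1) π^(-s/2) Γ(s/2) ζ(s) / 2`, written with Mathlib's entire function `Λ₀`, for which
`π^(-s/2) Γ(s/2) ζ(s) = Λ₀(s) - 1/s - 1/(1-s)`. -/
noncomputable def xi (s : ℂ) : ℂ := (1 + s * (s - 1) * completedRiemannZeta₀ s) / 2

/-- The positive ordinates of the solutions of `ξ(s) = a`, each taken once. -/
def Ordinates (a : ℂ) : Set ℝ := {γ : ℝ | 0 < γ ∧ ∃ β : ℝ, xi (β + γ * Complex.I) = a}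

section aux

open Complex Set
open Pool.Agent.H24R2.JP (XX FF HH)
open Pool.Agent.Q288.AP
open scoped ComplexConjugate

theorem xi_XX (s : ℂ) : 8 * xi s = XX (s - 1 / 2) := by
  unfold xi XX
  have e1 : 1 / 2 + (s - 1 / 2) = s := by ring
  rw [e1]
  ring

theorem xi_FF (s : ℂ) : FF ((s - 1 / 2) ^ 2) = 8 * xi s := by
  rw [Pool.Agent.H24R2.JP.b1.2.1, xi_XX]

theorem xi_conj (s : ℂ) : xi (conj s) = conj (xi s) := by
  have h1 := xi_XX (conj s)
  have e : conj s - 1 / 2 = -(-(conj (s - 1 / 2))) := by
    rw [neg_neg, map_sub, map_div₀, map_one, Complex.conj_ofNat]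
  rw [e, Pool.Agent.Q288.GI.XX_even, Pool.Agent.Q278.ZA.XX_symm, ← xi_XX] at h1
  rw [map_mul, Complex.conj_ofNat] at h1
  exact mul_left_cancel₀ (by norm_num) h1

theorem sq_ne {s t : ℂ} (h1 : s ≠ t) (h2 : s + t ≠ 1) : (s - 1 / 2) ^ 2 ≠ (t - 1 / 2) ^ 2 := by
  intro h
  rcases sq_eq_sq_iff_eq_or_eq_neg.1 h with h3 | h3
  · exact h1 (by linear_combination h3)
  · exact h2 (by linear_combination h3)

/-- the zeros -/
theorem ord_zero : Ordinates 0 = {γ : ℝ | 0 < γ ∧ ∃ β : ℝ, riemannZeta (β + γ * Complex.I) = 0} := by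
  ext γ
  refine and_congr_right fun hγ => exists_congr fun β => ?_
  have him : ((β + γ * Complex.I : ℂ) - 1 / 2).im = γ := by simp
  have h1 := Pool.Agent.H24R2.JP.zetaS.1 ((β + γ * Complex.I : ℂ) - 1 / 2) (by rw [him]; exact hγ)
  have e : (1 / 2 + ((β + γ * Complex.I : ℂ) - 1 / 2)) = β + γ * Complex.I := by ring
  rw [← xi_XX, e] at h1
  have hH : HH ((β + γ * Complex.I : ℂ) - 1 / 2) ≠ 0 := by
    unfold HH
    rw [e]
    refine mul_ne_zero ?_ ?_
    · intro h0
      have h2 : (2 * ((β + γ * Complex.I : ℂ) - 1 / 2) - 1) * (2 * ((β + γ * Complex.I : ℂ) - 1 / 2) + 1) = 0 := by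
        linear_combination h0
      rcases mul_eq_zero.1 h2 with h3 | h3
      · have := congrArg Complex.im h3
        simp at this
        exact hγ.ne' this
      · have := congrArg Complex.im h3
        simp at this
        exact hγ.ne' this
    · rw [Complex.Gammaℝ_def]
      refine mul_ne_zero ?_ (Complex.Gamma_ne_zero fun m hm => ?_)
      · rw [Ne, Complex.cpow_eq_zero_iff]
        rintro ⟨h0, -⟩
        exact Real.pi_ne_zero (by exact_mod_cast h0)
      · have e2 : (β + γ * Complex.I : ℂ) = -(2 * m) := by linear_combination 2 * hm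
        have := congrArg Complex.im e2
        simp at this
        exact hγ.ne' this
  constructor
  · intro h0
    rw [h0, mul_zero] at h1
    exact (mul_eq_zero.1 h1.symm).resolve_left hH
  · intro h0
    rw [h0, mul_zero] at h1
    exact (mul_eq_zero.1 h1).resolve_left (by norm_num)

theorem xi_symm (s : ℂ) : xi (1 - s) = xi s := by
  have h1 := xi_XX (1 - s)
  have e : 1 - s - 1 / 2 = -(s - 1 / 2) := by ring
  rw [e, Pool.Agent.Q288.GI.XX_even, ← xi_XX] at h1
  exact mul_left_cancel₀ (by norm_num) h1

/-- the exceptional set -/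
def Ex (K : Subfield ℂ) : Set ℂ := (fun a : ℂ => 8 * a) ⁻¹' ({b : ℂ | ¬ ∀ (n : ℕ) (w : Fin n → ℂ),
  Function.Injective w → (∀ i, FF (w i) = b) → AlgebraicIndependent K w} ∪ CV FF)

theorem Ex_countable (K : Subfield ℂ) [Countable K] : (Ex K).Countable := by
  obtain ⟨X, G, h⟩ := core xd.dat
  refine Set.Countable.preimage_of_injOn ((genXi K).union (cv_countable h)) ?_
  intro a _ b _ hab
  exact mul_left_cancel₀ (by norm_num) hab

theorem ai_finite {K : Subfield ℂ} {a : ℂ} (ha : a ∉ Ex K) {ι : Type} [Finite ι] {w : ι → ℂ}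
    (hw : Function.Injective w) (hF : ∀ i, FF (w i) = 8 * a) : AlgebraicIndependent K w := by
  have h1 : ∀ (n : ℕ) (w : Fin n → ℂ), Function.Injective w → (∀ i, FF (w i) = 8 * a) →
      AlgebraicIndependent K w := by
    by_contra hcon
    exact ha (Or.inl hcon)
  have h2 := h1 _ (w ∘ (Finite.equivFin ι).symm) (hw.comp (Finite.equivFin ι).symm.injective) (fun i => hF _)
  exact (algebraicIndependent_equiv (Finite.equivFin ι).symm).1 h2

theorem half_mem {K : Subfield ℂ} (B : Subalgebra K ℂ) : (1 / 2 : ℂ) ∈ B := by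
  have h1 : (1 / 2 : ℂ) = algebraMap K ℂ (1 / 2) := by rw [map_div₀, map_one, map_ofNat]
  rw [h1]
  exact B.algebraMap_mem _

theorem part1 {K : Subfield ℂ} {a : ℂ} (ha : a ∉ Ex K) {n : ℕ} {s : Fin n → ℂ} (hs : ∀ i, xi (s i) = a)
    (hne : ∀ i j, i ≠ j → s i ≠ s j ∧ s i + s j ≠ 1) : AlgebraicIndependent K s := by
  refine ai_of (w := fun i => (s i - 1 / 2) ^ 2) (ai_finite ha ?_ ?_) ?_
  · intro i j hij
    by_contra h
    exact sq_ne (hne i j h).1 (hne i j h).2 hij
  · intro i
    rw [xi_FF, hs]
  · intro i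
    exact Subalgebra.pow_mem _ (Subalgebra.sub_mem _ (Algebra.subset_adjoin (mem_range_self i)) (half_mem _)) 2

theorem part2 {K : Subfield ℂ} {a : ℂ} (ha : a ∉ Ex K) : {s | xi s = a}.Infinite := by
  obtain ⟨X, G, h⟩ := core xd.dat
  have h1 : {w | FF w = 8 * a}.Infinite := inf h fun h2 => ha (Or.inr h2)
  intro hfin
  refine h1 ((hfin.image fun s => (s - 1 / 2) ^ 2).subset ?_)
  intro w hw
  obtain ⟨z, hz, -⟩ := sqrt_re w
  refine ⟨1 / 2 + z, ?_, ?_⟩
  · have h2 := xi_FF (1 / 2 + z)
    have e : (1 / 2 + z - 1 / 2) ^ 2 = w := by rw [← hz]; ring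
    have hw' : FF w = 8 * a := hw
    rw [e, hw'] at h2
    exact (mul_left_cancel₀ (by norm_num) h2).symm
  · change (1 / 2 + z - 1 / 2) ^ 2 = w
    rw [← hz]
    ring

theorem part3 {K : Subfield ℂ} {a : ℂ} (ha : a ∉ Ex K) : (Ordinates a).Infinite := by
  intro hfin
  obtain ⟨M, hM⟩ := hfin.bddAbove
  have h1 : ∀ s, xi s = a → |s.im| ≤ |M| := by
    intro s hs
    rcases lt_trichotomy s.im 0 with h2 | h2 | h2
    · have h3 : -s.im ∈ Ordinates a := by
        refine ⟨by linarith, 1 - s.re, ?_⟩
        have e : (((1 - s.re : ℝ) : ℂ) + ((-s.im : ℝ) : ℂ) * Complex.I) = 1 - s := by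
          apply Complex.ext <;> simp
        rw [e, xi_symm, hs]
      rw [abs_of_neg h2]
      exact (hM h3).trans (le_abs_self M)
    · rw [h2, abs_zero]
      exact abs_nonneg M
    · have h3 : s.im ∈ Ordinates a := ⟨h2, s.re, by rw [Complex.re_add_im, hs]⟩
      rw [abs_of_pos h2]
      exact (hM h3).trans (le_abs_self M)
  have h2 := (xd.fin_im (8 * a) |M|).image fun z => 1 / 2 + z
  refine part2 ha (h2.subset ?_)
  intro s hs
  refine ⟨s - 1 / 2, ⟨?_, ?_⟩, by ring⟩
  · rw [← xi_XX, hs]
  · have : (s - 1 / 2).im = s.im := by simp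
    rw [this]
    exact h1 s hs

theorem part4 {K K' : Subfield ℂ} (hK : K ≤ K') (hI : Complex.I ∈ K') {a : ℝ} (ha : (a : ℂ) ∉ Ex K') :
    AlgebraicIndependent K (fun γ : Ordinates (a : ℂ) => ((γ : ℝ) : ℂ)) := by
  refine ai_mono hK (algebraicIndependent_of_finite_type fun t ht => ?_)
  haveI : Finite t := ht
  choose hpos β hβ using fun γ : Ordinates (a : ℂ) => γ.2
  obtain ⟨s, hs⟩ : ∃ s : Ordinates (a : ℂ) → ℂ, s = fun γ => (β γ : ℂ) + ((γ : ℝ) : ℂ) * Complex.I := ⟨_, rfl⟩
  have hsim : ∀ γ, (s γ).im = γ := fun γ => by rw [hs]; simp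
  have hsre : ∀ γ, (s γ).re = β γ := fun γ => by rw [hs]; simp
  have hxs : ∀ γ, xi (s γ) = a := fun γ => by rw [hs]; exact hβ γ
  obtain ⟨J, hJ⟩ : ∃ J : Set t, J = {γ : t | β (γ : Ordinates (a : ℂ)) ≠ 1 / 2} := ⟨_, rfl⟩
  have hJm : ∀ x : t, x ∈ J → β (x : Ordinates (a : ℂ)) ≠ 1 / 2 := by
    intro x hx
    rw [hJ] at hx
    exact hx
  obtain ⟨u, hu⟩ : ∃ u : t ⊕ J → ℂ, u = Sum.elim (fun i : t => (((i : Ordinates (a : ℂ)) : ℝ) : ℂ))
    (fun j : J => (β (j : t) : ℂ)) := ⟨_, rfl⟩
  obtain ⟨v, hv⟩ : ∃ v : t ⊕ J → ℂ, v = Sum.elim (fun i : t => s i)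
    (fun j : J => conj (s (j : t))) := ⟨_, rfl⟩
  have hxv : ∀ i, xi (v i) = a := by
    rintro (i | j)
    · rw [hv]
      exact hxs i
    · rw [hv]
      change xi (conj (s (j : t))) = a
      rw [xi_conj, hxs, Complex.conj_ofReal]
  have hinj : Function.Injective fun i => (v i - 1 / 2) ^ 2 := by
    intro i j hij
    by_contra hne
    have key : v i ≠ v j ∧ v i + v j ≠ 1 := by
      rw [hv]
      rcases i with i | i <;> rcases j with j | j
      · have h1 : ((i : Ordinates (a : ℂ)) : ℝ) ≠ j := fun h => hne (by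
          rw [Subtype.ext (Subtype.ext h)])
        refine ⟨fun h => h1 ?_, fun h => ?_⟩
        · have := congrArg Complex.im h
          simpa [hsim] using this
        · have := congrArg Complex.im h
          simp only [Sum.elim_inl, Complex.add_im, hsim, Complex.one_im] at this
          linarith [hpos i, hpos j]
      · refine ⟨fun h => ?_, fun h => ?_⟩
        · have := congrArg Complex.im h
          simp only [Sum.elim_inl, Sum.elim_inr, Complex.conj_im, hsim] at this
          linarith [hpos i, hpos (j : t)]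
        · have h1 := congrArg Complex.im h
          have h2 := congrArg Complex.re h
          simp only [Sum.elim_inl, Sum.elim_inr, Complex.add_im, Complex.add_re, Complex.conj_im, Complex.conj_re,
            hsim, hsre, Complex.one_im, Complex.one_re] at h1 h2
          have h3 : (i : Ordinates (a : ℂ)) = ((j : t) : Ordinates (a : ℂ)) := Subtype.ext (by linarith)
          have h4 := hJm _ j.2
          rw [h3] at h2
          exact h4 (by linarith)
      · refine ⟨fun h => ?_, fun h => ?_⟩
        · have := congrArg Complex.im h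
          simp only [Sum.elim_inl, Sum.elim_inr, Complex.conj_im, hsim] at this
          linarith [hpos (i : t), hpos j]
        · have h1 := congrArg Complex.im h
          have h2 := congrArg Complex.re h
          simp only [Sum.elim_inl, Sum.elim_inr, Complex.add_im, Complex.add_re, Complex.conj_im, Complex.conj_re,
            hsim, hsre, Complex.one_im, Complex.one_re] at h1 h2
          have h3 : (j : Ordinates (a : ℂ)) = ((i : t) : Ordinates (a : ℂ)) := Subtype.ext (by linarith)
          have h4 := hJm _ i.2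
          rw [h3] at h2
          exact h4 (by linarith)
      · have h1 : (((i : t) : Ordinates (a : ℂ)) : ℝ) ≠ (j : t) := fun h => hne (by
          rw [Subtype.ext (Subtype.ext (Subtype.ext h))])
        refine ⟨fun h => h1 ?_, fun h => ?_⟩
        · have := congrArg Complex.im h
          simpa [hsim] using this
        · have := congrArg Complex.im h
          simp only [Sum.elim_inr, Complex.add_im, Complex.conj_im, hsim, Complex.one_im] at this
          linarith [hpos (i : t), hpos (j : t)]
    exact sq_ne key.1 key.2 hij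
  have h1 : AlgebraicIndependent K' fun i => (v i - 1 / 2) ^ 2 :=
    ai_finite ha hinj fun i => by rw [xi_FF, hxv]
  have hIm : Complex.I ∈ Algebra.adjoin K' (range u) := by
    have h2 : Complex.I = algebraMap K' ℂ ⟨Complex.I, hI⟩ := rfl
    rw [h2]
    exact Subalgebra.algebraMap_mem _ _
  have hγm : ∀ i : t, ((((i : Ordinates (a : ℂ)) : ℝ)) : ℂ) ∈ Algebra.adjoin K' (range u) := fun i =>
    Algebra.subset_adjoin ⟨Sum.inl i, by rw [hu]; rfl⟩
  have hβm : ∀ i : t, (β i : ℂ) ∈ Algebra.adjoin K' (range u) := by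
    intro i
    by_cases h2 : β i = 1 / 2
    · rw [h2]
      have := half_mem (Algebra.adjoin K' (range u))
      simpa using this
    · exact Algebra.subset_adjoin ⟨Sum.inr ⟨i, by rw [hJ]; exact h2⟩, by rw [hu]; rfl⟩
  have h2 : AlgebraicIndependent K' u := by
    refine ai_of h1 ?_
    rintro (i | j)
    · refine Subalgebra.pow_mem _ (Subalgebra.sub_mem _ ?_ (half_mem _)) 2
      rw [hv]
      change s i ∈ _
      rw [hs]
      exact Subalgebra.add_mem _ (hβm i) (Subalgebra.mul_mem _ (hγm i) hIm)
    · refine Subalgebra.pow_mem _ (Subalgebra.sub_mem _ ?_ (half_mem _)) 2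
      rw [hv]
      change conj (s (j : t)) ∈ _
      have e : conj (s (j : t)) = (β (j : t) : ℂ) - ((((j : t) : Ordinates (a : ℂ)) : ℝ) : ℂ) * Complex.I := by
        rw [hs]
        simp
        ring
      rw [e]
      exact Subalgebra.sub_mem _ (hβm j) (Subalgebra.mul_mem _ (hγm j) hIm)
  have h3 := h2.comp Sum.inl Sum.inl_injective
  have e : u ∘ Sum.inl = fun i : t => (((i : Ordinates (a : ℂ)) : ℝ) : ℂ) := by
    rw [hu]
    rfl
  rwa [e] at h3

end aux

/-- **Theorem.** `Γ_0` is the set of the ordinates of the zeros of `ζ`.  For every countable field `K` of complex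
numbers there is a countable set `E` such that for all `a ∉ E` the equation `ξ(s) = a` has infinitely many solutions
with distinct ordinates, any finitely many solutions, no two equal or symmetric with respect to `s = 1/2`, are
algebraically independent over `K`, and for real `a ∉ E` the set `Γ_a` of the positive ordinates of the solutions is
algebraically independent over `K`. -/
theorem result :
    Ordinates 0 = {γ : ℝ | 0 < γ ∧ ∃ β : ℝ, riemannZeta (β + γ * Complex.I) = 0} ∧
    ∀ K : Subfield ℂ, Countable K → ∃ E : Set ℂ, E.Countable ∧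
      (∀ a : ℝ, (a : ℂ) ∉ E → AlgebraicIndependent K (fun γ : Ordinates (a : ℂ) => ((γ : ℝ) : ℂ))) ∧
      (∀ a ∉ E, (Ordinates a).Infinite) ∧
      (∀ a ∉ E, ∀ (n : ℕ) (s : Fin n → ℂ), (∀ i, xi (s i) = a) →
        (∀ i j, i ≠ j → s i ≠ s j ∧ s i + s j ≠ 1) → AlgebraicIndependent K s) := by
  refine ⟨ord_zero, fun K hK => ?_⟩
  haveI := hK
  obtain ⟨K', hK', hKK', hI⟩ := Pool.Agent.Q288.AP.adjoin_I K
  haveI := hK'
  refine ⟨Ex K', Ex_countable K', fun a ha => part4 hKK' hI ha, fun a ha => part3 ha, fun a ha n s hs hne => ?_⟩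
  exact Pool.Agent.Q288.AP.ai_mono hKK' (part1 ha hs hne)

end Pool.Agent.Results.MP_ec260d_nt.GenericValues
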