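import Pool.Agent.Q253.LK.K4

set_option autoImplicit false

/-!
# The linear part of the algebraic independence of the ordinates, as inequalities for primes

No hypothesis is assumed.  For `x = e^u` put `E(u) = ∑ Λ(n) n^(-1/2) min(n/x, x/n) - (8/3) √x`.  Let `K` be a subfield of
`ℝ`, for example the field of the real algebraic numbers.  The Riemann hypothesis, the simplicity of the zeros and the linear
independence over `K` of `1` and the ordinates (no polynomial relation of degree one with coefficients in `K`) are together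
equivalent to one-sided bounds for the exponential means of the sums `∑_j (cos(θ_j u) - E(θ_j u))`, for all finite
systems of positive `θ_j ∈ K` which are linearly independent over `ℚ`; that is, to the asymptotic independence of the
prime sums at the places `x^(θ_1), ..., x^(θ_m)`.
-/

open Filter Topology Set Complex

namespace Pool.Agent.Results.MP_ec260d_nt.LinearRelationsOverFields

/-- the Riemann hypothesis -/
def RH : Prop := ∀ s : ℂ, 1 / 2 < s.re → s.re < 1 → riemannZeta s ≠ 0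

/-- the set `Γ` of the problem -/
def Gam : Set ℝ := {γ : ℝ | 0 < γ ∧ ∃ β : ℝ, riemannZeta ((β : ℂ) + (γ : ℂ) * I) = 0}

/-- the zeros with positive ordinate are simple -/
def Simple : Prop := ∀ s : ℂ, 0 < s.im → riemannZeta s = 0 → deriv riemannZeta s ≠ 0

/-- the family which consists of `1` and the elements of `Γ` -/
def oneAndGam (x : Option Gam) : ℝ := x.elim 1 (fun γ => (γ : ℝ))

/-- `∑ Λ(n) n^(-1/2) min(n/x, x/n) - (8/3) √x` for `x = e^u` -/
noncomputable def E (u : ℝ) : ℝ :=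
  (∑' n : ℕ, ArithmeticFunction.vonMangoldt n *
    (Real.exp (-(Real.log n / 2)) * Real.exp (-|u - Real.log n|))) - 8 / 3 * Real.exp (u / 2)

/-- `(1/U) ∫_0^U exp (λ ∑_j F(θ_j u)) du` -/
noncomputable def M (F : ℝ → ℝ) (lam : ℝ) {m : ℕ} (θ : Fin m → ℝ) (U : ℝ) : ℝ :=
  (1 / U) * ∫ u in (0 : ℝ)..U, Real.exp (lam * ∑ j, F (θ j * u))

/-- the Bessel function `I₀` -/
noncomputable def I0 (w : ℂ) : ℂ := ∑' k : ℕ, (w / 2) ^ (2 * k) / ((Nat.factorial k : ℂ) ^ 2)

/-- Riemann's function -/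
noncomputable def xi (s : ℂ) : ℂ := (1 + s * (s - 1) * completedRiemannZeta₀ s) / 2

/-- `H(t) = (1-t)^(-1/2) ξ'/ξ (1/2 + (1-t)^(1/2))`; for `|t| = 1/2` the argument has real part greater than `1` -/
noncomputable def H (t : ℂ) : ℂ := (1 - t) ^ (-(1 / 2) : ℂ) * logDeriv xi (1 / 2 + (1 - t) ^ (1 / 2 : ℂ))

/-- `R(λ) = exp ((1/4πi) ∮_{|t| = 1/2} H(t) log I₀(4λ/t) dt)` -/
noncomputable def R (lam : ℝ) : ℝ :=
  Real.exp (1 / (4 * Real.pi * I) * ∮ t in C(0, 1 / 2), H t * Complex.log (I0 (4 * lam / t))).re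

/-- the systems of positive elements of `K` which are linearly independent over `ℚ` -/
def System (K : Subfield ℝ) {m : ℕ} (θ : Fin m → ℝ) : Prop :=
  (∀ j, θ j ∈ K) ∧ (∀ j, 0 < θ j) ∧ LinearIndependent ℚ θ

lemma E_eq : E = Pool.Agent.Q253.LQ.EE 1 := by
  funext u
  unfold E Pool.Agent.Q253.LQ.EE
  rw [Nat.totient_one, Nat.cast_one, one_mul]
  congr 1
  refine tsum_congr fun n => ?_
  rw [if_pos (by rw [Nat.mod_one, Nat.mod_one])]

lemma XL_eq (χ : DirichletCharacter ℂ 1) : Pool.Agent.Q253.LQ.XL χ = xi := by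
  funext s
  unfold Pool.Agent.Q253.LQ.XL
  rw [if_pos (Subsingleton.elim χ 1)]
  rfl

lemma R_eq : R = Pool.Agent.Q253.LQ.Rq 1 := by
  funext lam
  unfold R Pool.Agent.Q253.LQ.Rq
  have e : ∀ t, Pool.Agent.Q253.LQ.Hq 1 t = H t := by
    intro t
    unfold Pool.Agent.Q253.LQ.Hq H
    congr 1
    simp_rw [XL_eq]
    rw [Finset.sum_const]
    have : (Finset.univ : Finset (DirichletCharacter ℂ 1)).card = 1 := by
      rw [Finset.card_univ, Fintype.card_eq_one_iff]
      exact ⟨1, fun χ => Subsingleton.elim _ _⟩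
    rw [this, one_smul]
  simp_rw [e]
  rfl

lemma RH_iff : Pool.Agent.Q253.LQ.GRHq 1 ↔ RH := Pool.Agent.Q253.LM.grh_one

/-- Let `K` be a subfield of `ℝ` and `0 < λ ≤ 1/8`.  (1) The Riemann hypothesis, the simplicity of the zeros and the linear
independence of `1` and the elements of `Γ` over `K` are together equivalent to the inequalities
`limsup (1/U) ∫_0^U exp (λ ∑_j (cos(θ_j u) - E(θ_j u))) du ≤ (I₀(λ) R(λ))^m` for all systems `θ_1, ..., θ_m` of positive
elements of `K` which are linearly independent over `ℚ`; (2) the same with limits; (3) under the Riemann hypothesis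
the lower limits are at least these numbers.  (4) Without the terms `cos` and `I₀(λ)` the inequalities are equivalent to
the Riemann hypothesis, the simplicity of the zeros and the linear independence of `Γ` over `K`.  (5) If `K` is
algebraic over `ℚ`, the algebraic independence of `Γ` implies the linear independence in (1). -/
theorem result (K : Subfield ℝ) (lam : ℝ) (h0 : 0 < lam) (h1 : lam ≤ 1 / 8) :
    ((RH ∧ Simple ∧ LinearIndependent K oneAndGam) ↔ ∀ (m : ℕ) (θ : Fin m → ℝ), System K θ →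
      ∀ ε : ℝ, 0 < ε → ∀ᶠ U : ℝ in atTop, M (fun u => Real.cos u - E u) lam θ U ≤ ((I0 lam).re * R lam) ^ m + ε) ∧
    ((RH ∧ Simple ∧ LinearIndependent K oneAndGam) ↔ ∀ (m : ℕ) (θ : Fin m → ℝ), System K θ →
      Tendsto (M (fun u => Real.cos u - E u) lam θ) atTop (𝓝 (((I0 lam).re * R lam) ^ m))) ∧
    (RH → ∀ (m : ℕ) (θ : Fin m → ℝ), (∀ j, 0 < θ j) →
      ∀ ε : ℝ, 0 < ε → ∀ᶠ U : ℝ in atTop, ((I0 lam).re * R lam) ^ m - ε ≤ M (fun u => Real.cos u - E u) lam θ U) ∧
    ((RH ∧ Simple ∧ LinearIndependent K (fun γ : Gam => (γ : ℝ))) ↔ ∀ (m : ℕ) (θ : Fin m → ℝ), System K θ →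
      ∀ ε : ℝ, 0 < ε → ∀ᶠ U : ℝ in atTop, M (fun u => -E u) lam θ U ≤ R lam ^ m + ε) ∧
    ((∀ x ∈ K, IsAlgebraic ℚ x) → AlgebraicIndependent ℚ (fun γ : Gam => (γ : ℝ)) → LinearIndependent K oneAndGam) := by
  obtain ⟨a1, a2, a3⟩ := Pool.Agent.Q253.LK.crit1 K h0 h1
  obtain ⟨b1, -, -⟩ := Pool.Agent.Q253.LK.crit0 K h0 h1
  rw [RH_iff, ← E_eq, ← R_eq] at a1 a2 a3 b1
  refine ⟨?_, ?_, a3, ?_, fun hK h => Pool.Agent.Q253.LK.alg_lin h K hK⟩
  · refine Iff.trans a1 ⟨fun h m θ hθ => h m θ hθ.1 hθ.2.1 hθ.2.2, fun h m θ x y z => h m θ ⟨x, y, z⟩⟩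
  · refine Iff.trans a2 ⟨fun h m θ hθ => h m θ hθ.1 hθ.2.1 hθ.2.2, fun h m θ x y z => h m θ ⟨x, y, z⟩⟩
  · refine Iff.trans b1 ⟨fun h m θ hθ => h m θ hθ.1 hθ.2.1 hθ.2.2, fun h m θ x y z => h m θ ⟨x, y, z⟩⟩

end Pool.Agent.Results.MP_ec260d_nt.LinearRelationsOverFields
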