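import Pool.Agent.Q253.LK.K8

set_option autoImplicit false

/-!
# Given real numbers and the ordinates of the zeta zeros: linear independence, as one inequality for primes

No hypothesis is assumed.  For `x = e^u` put `E(u) = ∑ Λ(n) n^(-1/2) min(n/x, x/n) - (8/3) √x`.  For any positive real numbers
`θ_1, ..., θ_m` one one-sided bound for the exponential mean of `∑_j cos(θ_j u) - E(u)` is equivalent to the Riemann
hypothesis, the simplicity of the zeros and the linear independence over `ℚ` of `θ_1, ..., θ_m` and all the ordinates, together.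
Consequently, for every `ℚ`-linear subspace `W` of `ℝ` (for example the real algebraic numbers), the Riemann hypothesis,
simplicity, the linear independence of the ordinates and `W ∩ span Γ = 0` are together equivalent to these bounds for the
linearly independent finite families in `W`, and, if `W ≠ 0`, to the bounds for the single elements of `W`.
-/

open Filter Topology Set Complex

namespace Pool.Agent.Results.MP_ec260d_nt.RealNumbersAndOrdinates

/-- the Riemann hypothesis -/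
def RH : Prop := ∀ s : ℂ, 1 / 2 < s.re → s.re < 1 → riemannZeta s ≠ 0

/-- the set `Γ` of the problem -/
def Gam : Set ℝ := {γ : ℝ | 0 < γ ∧ ∃ β : ℝ, riemannZeta ((β : ℂ) + (γ : ℂ) * I) = 0}

/-- the zeros with positive ordinate are simple -/
def Simple : Prop := ∀ s : ℂ, 0 < s.im → riemannZeta s = 0 → deriv riemannZeta s ≠ 0

/-- the family which consists of `θ_1, ..., θ_m` and the elements of `Γ` -/
def withGam {m : ℕ} (θ : Fin m → ℝ) (x : Fin m ⊕ Gam) : ℝ := x.elim θ (fun γ => (γ : ℝ))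

/-- `∑ Λ(n) n^(-1/2) min(n/x, x/n) - (8/3) √x` for `x = e^u` -/
noncomputable def E (u : ℝ) : ℝ :=
  (∑' n : ℕ, ArithmeticFunction.vonMangoldt n *
    (Real.exp (-(Real.log n / 2)) * Real.exp (-|u - Real.log n|))) - 8 / 3 * Real.exp (u / 2)

/-- `(1/U) ∫_0^U exp (λ (∑_j cos(θ_j u) - E(u))) du` -/
noncomputable def M (lam : ℝ) {m : ℕ} (θ : Fin m → ℝ) (U : ℝ) : ℝ :=
  (1 / U) * ∫ u in (0 : ℝ)..U, Real.exp (lam * (∑ j, Real.cos (θ j * u) - E u))

/-- the Bessel function `I₀` -/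
noncomputable def I0 (w : ℂ) : ℂ := ∑' k : ℕ, (w / 2) ^ (2 * k) / ((Nat.factorial k : ℂ) ^ 2)

/-- Riemann's function -/
noncomputable def xi (s : ℂ) : ℂ := (1 + s * (s - 1) * completedRiemannZeta₀ s) / 2

/-- `H(t) = (1-t)^(-1/2) ξ'/ξ (1/2 + (1-t)^(1/2))`; for `|t| = 1/2` the argument has real part greater than `1` -/
noncomputable def H (t : ℂ) : ℂ := (1 - t) ^ (-(1 / 2) : ℂ) * logDeriv xi (1 / 2 + (1 - t) ^ (1 / 2 : ℂ))

/-- `R(λ) = exp ((1/4πi) ∮_{|t| = 1/2} H(t) log I₀(4λ/t) dt)` -/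
noncomputable def R (lam : ℝ) : ℝ :=
  Real.exp (1 / (4 * Real.pi * I) * ∮ t in C(0, 1 / 2), H t * Complex.log (I0 (4 * lam / t))).re

/-- the one-sided bound `limsup M(λ, θ, U) ≤ I₀(λ)^m R(λ)` -/
def Bound (lam : ℝ) {m : ℕ} (θ : Fin m → ℝ) : Prop :=
  ∀ ε : ℝ, 0 < ε → ∀ᶠ U : ℝ in atTop, M lam θ U ≤ (I0 lam).re ^ m * R lam + ε

lemma E_eq : E = Pool.Agent.Q253.LQ.EE 1 := by
  funext u
  unfold E Pool.Agent.Q253.LQ.EE
  rw [Nat.totient_one, Nat.cast_one, one_mul]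
  congr 1
  refine tsum_congr fun n => ?_
  rw [if_pos (by rw [Nat.mod_one, Nat.mod_one])]

lemma XL_eq (χ : DirichletCharacter ℂ 1) : Pool.Agent.Q253.LQ.XL χ = xi := by
  funext s
  unfold Pool.Agent.Q253.LQ.XL
  rw [if_pos (Subsingleton.elim χ 1)]
  rfl

lemma R_eq : R = Pool.Agent.Q253.LQ.Rq 1 := by
  funext lam
  unfold R Pool.Agent.Q253.LQ.Rq
  have e : ∀ t, Pool.Agent.Q253.LQ.Hq 1 t = H t := by
    intro t
    unfold Pool.Agent.Q253.LQ.Hq H
    congr 1
    simp_rw [XL_eq]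
    rw [Finset.sum_const]
    have : (Finset.univ : Finset (DirichletCharacter ℂ 1)).card = 1 := by
      rw [Finset.card_univ, Fintype.card_eq_one_iff]
      exact ⟨1, fun χ => Subsingleton.elim _ _⟩
    rw [this, one_smul]
  simp_rw [e]
  rfl

lemma RH_iff : Pool.Agent.Q253.LQ.GRHq 1 ↔ RH := Pool.Agent.Q253.LM.grh_one

lemma M_eq {m : ℕ} (lam : ℝ) (θ : Fin m → ℝ) : M lam θ = Pool.Agent.Q253.LK.MTm lam θ := by
  funext U
  unfold M Pool.Agent.Q253.LK.MTm
  rw [E_eq]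

lemma main (lam : ℝ) (h0 : 0 < lam) (h1 : lam ≤ 1 / 8) {m : ℕ} (θ : Fin m → ℝ) (hθ : ∀ j, 0 < θ j) :
    ((RH ∧ Simple ∧ LinearIndependent ℚ (withGam θ)) ↔ Bound lam θ) ∧
    ((RH ∧ Simple ∧ LinearIndependent ℚ (withGam θ)) ↔ Tendsto (M lam θ) atTop (𝓝 ((I0 lam).re ^ m * R lam))) ∧
    (RH → ∀ ε : ℝ, 0 < ε → ∀ᶠ U : ℝ in atTop, (I0 lam).re ^ m * R lam - ε ≤ M lam θ U) := by
  obtain ⟨a1, a2, a3⟩ := Pool.Agent.Q253.LK.critm hθ h0 h1
  rw [RH_iff, ← R_eq, ← M_eq] at a1 a2 a3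
  exact ⟨a1, a2, a3⟩

/-- Let `0 < λ ≤ 1/8`.  (1) For all positive real numbers `θ_1, ..., θ_m` the Riemann hypothesis, the simplicity of the zeros and the
linear independence over `ℚ` of `θ_1, ..., θ_m` and the elements of `Γ` are together equivalent to
`limsup M(λ, θ, U) ≤ I₀(λ)^m R(λ)`, and to `M(λ, θ, U) → I₀(λ)^m R(λ)`; under the Riemann hypothesis the lower limit is at least
this number.  (2) For every `ℚ`-linear subspace `W` of `ℝ` the Riemann hypothesis, simplicity, the linear independence of `Γ` and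
`W ∩ span Γ = 0` are together equivalent to the bounds for all finite linearly independent families of positive elements of `W`;
and, if `W ≠ 0`, to the bounds for the positive elements of `W` alone. -/
theorem result (lam : ℝ) (h0 : 0 < lam) (h1 : lam ≤ 1 / 8) :
    (∀ (m : ℕ) (θ : Fin m → ℝ), (∀ j, 0 < θ j) →
      ((RH ∧ Simple ∧ LinearIndependent ℚ (withGam θ)) ↔ Bound lam θ) ∧
      ((RH ∧ Simple ∧ LinearIndependent ℚ (withGam θ)) ↔ Tendsto (M lam θ) atTop (𝓝 ((I0 lam).re ^ m * R lam))) ∧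
      (RH → ∀ ε : ℝ, 0 < ε → ∀ᶠ U : ℝ in atTop, (I0 lam).re ^ m * R lam - ε ≤ M lam θ U)) ∧
    (∀ W : Submodule ℚ ℝ,
      ((RH ∧ Simple ∧ LinearIndependent ℚ (fun γ : Gam => (γ : ℝ)) ∧ Disjoint W (Submodule.span ℚ Gam)) ↔
        ∀ (m : ℕ) (θ : Fin m → ℝ), (∀ j, 0 < θ j ∧ θ j ∈ W) → LinearIndependent ℚ θ → Bound lam θ) ∧
      (W ≠ ⊥ → ((RH ∧ Simple ∧ LinearIndependent ℚ (fun γ : Gam => (γ : ℝ)) ∧ Disjoint W (Submodule.span ℚ Gam)) ↔
        ∀ θ ∈ W, 0 < θ → Bound lam ![θ]))) := by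
  have key : ∀ W : Submodule ℚ ℝ, RH ∧ Simple ∧ LinearIndependent ℚ (fun γ : Gam => (γ : ℝ)) ∧ Disjoint W (Submodule.span ℚ Gam) →
      ∀ (m : ℕ) (θ : Fin m → ℝ), (∀ j, 0 < θ j ∧ θ j ∈ W) → LinearIndependent ℚ θ → Bound lam θ := by
    rintro W ⟨hR, hS, hL, hd⟩ m θ hθ hLθ
    refine (main lam h0 h1 θ fun j => (hθ j).1).1.1 ⟨hR, hS, ?_⟩
    have e : withGam θ = Sum.elim θ (fun γ : Gam => (γ : ℝ)) := by
      funext x
      cases x <;> rfl
    rw [e]
    refine hLθ.sum_type hL ?_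
    refine hd.mono ?_ ?_
    · refine Submodule.span_le.2 ?_
      rintro _ ⟨j, rfl⟩
      exact (hθ j).2
    · refine Submodule.span_mono ?_
      rintro _ ⟨γ, rfl⟩
      exact γ.2
  have single : ∀ θ : ℝ, 0 < θ → LinearIndependent ℚ (withGam ![θ]) →
      LinearIndependent ℚ (fun γ : Gam => (γ : ℝ)) ∧ θ ∉ Submodule.span ℚ Gam := by
    intro θ _ h
    have h2 : LinearIndependent ℚ (fun γ : Gam => (γ : ℝ)) := h.comp Sum.inr Sum.inr_injective
    refine ⟨h2, fun hmem => ?_⟩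
    have h3 := h.notMem_span_image (s := Set.range Sum.inr) (x := Sum.inl 0) (by simp)
    apply h3
    have e : withGam ![θ] '' Set.range Sum.inr = Gam := by
      ext y
      constructor
      · rintro ⟨_, ⟨γ, rfl⟩, rfl⟩
        exact γ.2
      · intro hy
        exact ⟨Sum.inr ⟨y, hy⟩, ⟨_, rfl⟩, rfl⟩
    rw [e]
    exact hmem
  have disj : ∀ W : Submodule ℚ ℝ, (∀ θ ∈ W, 0 < θ → θ ∉ Submodule.span ℚ Gam) → Disjoint W (Submodule.span ℚ Gam) := by
    intro W hW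
    rw [Submodule.disjoint_def]
    intro x hx hx2
    by_contra hne
    rcases lt_or_gt_of_ne hne with h | h
    · exact hW (-x) (W.neg_mem hx) (by linarith) ((Submodule.span ℚ Gam).neg_mem hx2)
    · exact hW x hx h hx2
  refine ⟨fun m θ hθ => main lam h0 h1 θ hθ, fun W => ⟨⟨key W, fun h => ?_⟩, fun hW => ⟨fun h θ hθ hp => ?_, fun h => ?_⟩⟩⟩
  · have e0 : LinearIndependent ℚ (Fin.elim0 : Fin 0 → ℝ) := linearIndependent_empty_type
    obtain ⟨hR, hS, hL⟩ := (main lam h0 h1 (Fin.elim0 : Fin 0 → ℝ) fun j => j.elim0).1.2 (h 0 _ (fun j => j.elim0) e0)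
    refine ⟨hR, hS, hL.comp Sum.inr Sum.inr_injective, disj W fun θ hθ hp => ?_⟩
    have h1' := h 1 ![θ] (fun j => by
      rw [Subsingleton.elim j 0]
      exact ⟨hp, hθ⟩) (by
        refine (LinearIndependent.of_subsingleton (0 : Fin 1) ?_)
        exact hp.ne')
    exact (single θ hp ((main lam h0 h1 ![θ] fun j => by
      rw [Subsingleton.elim j 0]
      exact hp).1.2 h1').2.2).2
  · refine key W h 1 ![θ] (fun j => by
      rw [Subsingleton.elim j 0]
      exact ⟨hp, hθ⟩) (LinearIndependent.of_subsingleton (0 : Fin 1) hp.ne')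
  · have hb : ∀ θ ∈ W, 0 < θ → RH ∧ Simple ∧ LinearIndependent ℚ (withGam ![θ]) := fun θ hθ hp =>
      (main lam h0 h1 ![θ] fun j => by
        rw [Subsingleton.elim j 0]
        exact hp).1.2 (h θ hθ hp)
    obtain ⟨x, hx, hx0⟩ := W.ne_bot_iff.1 hW
    obtain ⟨θ, hθ, hp⟩ : ∃ θ ∈ W, 0 < θ := by
      rcases lt_or_gt_of_ne hx0 with h | h
      · exact ⟨-x, W.neg_mem hx, by linarith⟩
      · exact ⟨x, hx, h⟩
    obtain ⟨hR, hS, hL⟩ := hb θ hθ hp
    exact ⟨hR, hS, (single θ hp hL).1, disj W fun θ hθ hp => (single θ hp (hb θ hθ hp).2.2).2⟩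

end Pool.Agent.Results.MP_ec260d_nt.RealNumbersAndOrdinates
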